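import Mathlib

/-!
# The domatic number game

A position of the game with palette `[k]` is a partial colouring `p : V → Option (Fin k)`
(`none` means not yet coloured).
-/

namespace Pool.Agent.Lib.MP_2ce84e_co

/-- A move: one uncoloured vertex receives a colour of the palette. -/
def Move {V : Type} {k : ℕ} (p p' : V → Option (Fin k)) : Prop :=
  ∃ v, p v = none ∧ p' v ≠ none ∧ ∀ w, w ≠ v → p' w = p w

/-- `Win G k m t p`: Alice can win the game on `G` with palette `[k]` from the position `p`, when
`m` moves remain to be made and `t = true` if it is Alice's turn, `t = false` if it is Bob's turn.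
When no move remains, Alice wins if every closed neighbourhood contains all `k` colours. -/
def Win {V : Type} (G : SimpleGraph V) (k : ℕ) : ℕ → Bool → (V → Option (Fin k)) → Prop
  | 0, _, p => ∀ (x : V) (c : Fin k), ∃ y, (y = x ∨ G.Adj x y) ∧ p y = some c
  | m + 1, true, p => ∃ p', Move p p' ∧ Win G k m false p'
  | m + 1, false, p => ∀ p', Move p p' → Win G k m true p'

/-- The game domatic number: the largest `k` for which Alice wins the game with palette `[k]` in
which Alice moves first. -/
noncomputable def gammaA {V : Type} (G : SimpleGraph V) : ℕ :=
  sSup {k | Win G k (Nat.card V) true fun _ => none}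

/-- The delayed game domatic number: the largest `k` for which Alice wins the game with palette
`[k]` in which Bob moves first. -/
noncomputable def gammaB {V : Type} (G : SimpleGraph V) : ℕ :=
  sSup {k | Win G k (Nat.card V) false fun _ => none}

end Pool.Agent.Lib.MP_2ce84e_co
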