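import Mathlib
import Pool.Agent.Lib.MP_2ce84e_co.Defs

/-!
# Computation of game domatic numbers

A verified solver for the domatic number game, two strategy lemmas, and the values for
`K₂`, `K₃`, `K₃,₃`, `K₂ ⊕ K₃` and `K₂ ⊕ K₃,₃`.
-/

namespace Pool.Agent.Lib.MP_2ce84e_co

variable {V : Type} {k : ℕ}

/-- The number of uncoloured vertices. -/
noncomputable def unc (p : V → Option (Fin k)) : ℕ := {v | p v = none}.ncard

theorem unc_start [Finite V] : unc (fun _ : V => (none : Option (Fin k))) = Nat.card V := by
  simp [unc, Set.ncard_univ]

theorem unc_move [Finite V] {p p' : V → Option (Fin k)} (h : Move p p') : unc p = unc p' + 1 := by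
  obtain ⟨v, hv, hv', hw⟩ := h
  unfold unc
  have hset : {w | p w = none} = insert v {w | p' w = none} := by
    ext w
    by_cases hwv : w = v
    · subst hwv; simp [hv]
    · simp [hwv, hw w hwv]
  rw [hset, Set.ncard_insert_of_notMem]
  simpa using hv'

theorem move_update [DecidableEq V] (p : V → Option (Fin k)) (v : V) (hv : p v = none)
    (c : Fin k) : Move p (Function.update p v (some c)) :=
  ⟨v, hv, by simp, fun w hw => by simp [hw]⟩

theorem move_iff [DecidableEq V] (p p' : V → Option (Fin k)) :
    Move p p' ↔ ∃ v c, p v = none ∧ p' = Function.update p v (some c) := by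
  constructor
  · rintro ⟨v, hv, hv', hw⟩
    obtain ⟨c, hc⟩ := Option.ne_none_iff_exists'.1 hv'
    refine ⟨v, c, hv, ?_⟩
    funext w
    by_cases hwv : w = v
    · subst hwv; simp [hc]
    · simp [hwv, hw w hwv]
  · rintro ⟨v, c, hv, rfl⟩
    exact move_update p v hv c

theorem exists_unc {p : V → Option (Fin k)} {m : ℕ} (h : unc p = m + 1) : ∃ v, p v = none := by
  by_contra hcon
  push Not at hcon
  have : {v | p v = none} = ∅ := by
    ext v; simp [hcon v]
  rw [unc, this, Set.ncard_empty] at h
  omega

/-- If Alice wins, then every fully coloured closed neighbourhood has all colours. -/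
theorem win_full [Finite V] (G : SimpleGraph V) : ∀ (m : ℕ) (t : Bool) (p : V → Option (Fin k)),
    unc p = m → Win G k m t p → ∀ x, (∀ y, (y = x ∨ G.Adj x y) → p y ≠ none) →
    ∀ c, ∃ y, (y = x ∨ G.Adj x y) ∧ p y = some c := by
  classical
  intro m
  induction m with
  | zero => intro t p _ hw x _ c; cases t <;> exact hw x c
  | succ m ih =>
    intro t p hu hw x hx c
    have hmove : ∃ p', Move p p' ∧ Win G k m (!t) p' := by
      cases t
      · obtain ⟨v, hv⟩ := exists_unc hu
        exact ⟨_, move_update p v hv c, hw _ (move_update p v hv c)⟩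
      · exact hw
    obtain ⟨p', hm, hw'⟩ := hmove
    have hu' : unc p' = m := by have := unc_move hm; omega
    obtain ⟨v, hv, -, hvw⟩ := hm
    have heq : ∀ y, (y = x ∨ G.Adj x y) → p' y = p y := by
      intro y hy
      apply hvw
      rintro rfl
      exact hx _ hy hv
    obtain ⟨y, hy, hyc⟩ := ih _ p' hu' hw' x (fun y hy => by rw [heq y hy]; exact hx y hy) c
    exact ⟨y, hy, by rw [← heq y hy]; exact hyc⟩

/-- The palette is at most as large as every closed neighbourhood. -/
theorem win_le [Finite V] (G : SimpleGraph V) (x : V) : ∀ (m : ℕ) (t : Bool)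
    (p : V → Option (Fin k)), unc p = m → Win G k m t p →
    k ≤ {y | y = x ∨ G.Adj x y}.ncard := by
  classical
  intro m
  rcases Nat.eq_zero_or_pos k with hk | hk
  · intro t p _ _; omega
  induction m with
  | zero =>
    intro t p _ hw
    have hw' : ∀ c : Fin k, ∃ y, (y = x ∨ G.Adj x y) ∧ p y = some c := by
      intro c; cases t <;> exact hw x c
    choose f hf hfc using hw'
    have hinj : Function.Injective f := by
      intro a b hab
      have := hfc a
      rw [hab, hfc b] at this
      exact (Option.some_injective _ this).symm
    have h1 : (Set.range f).ncard = k := by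
      rw [← Set.image_univ, Set.ncard_image_of_injective _ hinj, Set.ncard_univ]
      simp
    rw [← h1]
    apply Set.ncard_le_ncard _ (Set.toFinite _)
    rintro _ ⟨c, rfl⟩
    exact hf c
  | succ m ih =>
    intro t p hu hw
    have hmove : ∃ p', Move p p' ∧ Win G k m (!t) p' := by
      cases t
      · obtain ⟨v, hv⟩ := exists_unc hu
        exact ⟨_, move_update p v hv ⟨0, hk⟩, hw _ (move_update p v hv ⟨0, hk⟩)⟩
      · exact hw
    obtain ⟨p', hm, hw'⟩ := hmove
    exact ih _ p' (by have := unc_move hm; omega) hw'

/-! ## The solver -/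

section Solver

variable [DecidableEq V]

/-- Closed adjacency. -/
def nb (adj : V → V → Bool) (x y : V) : Bool := decide (y = x) || adj x y

/-- Some closed neighbourhood is fully coloured but misses a colour. -/
def stuck (vs : List V) (cs : List (Fin k)) (adj : V → V → Bool) (p : V → Option (Fin k)) : Bool :=
  vs.any fun x => (vs.all fun y => !(nb adj x y) || (p y).isSome) &&
    cs.any fun c => vs.all fun y => !(nb adj x y) || !(decide (p y = some c))

/-- Every closed neighbourhood has all colours. -/
def good (vs : List V) (cs : List (Fin k)) (adj : V → V → Bool) (p : V → Option (Fin k)) : Bool :=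
  vs.all fun x => cs.all fun c => vs.any fun y => nb adj x y && decide (p y = some c)

/-- The solver. -/
def solve (vs : List V) (cs : List (Fin k)) (adj : V → V → Bool) :
    ℕ → Bool → (V → Option (Fin k)) → Bool
  | 0, _, p => good vs cs adj p
  | m + 1, true, p => !(stuck vs cs adj p) &&
      vs.any fun v => (p v).isNone &&
        cs.any fun c => solve vs cs adj m false (Function.update p v (some c))
  | m + 1, false, p => !(stuck vs cs adj p) &&
      vs.all fun v => (p v).isSome ||
        cs.all fun c => solve vs cs adj m true (Function.update p v (some c))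

theorem nb_iff (G : SimpleGraph V) (adj : V → V → Bool) (hadj : ∀ x y, adj x y = true ↔ G.Adj x y)
    (x y : V) : nb adj x y = true ↔ (y = x ∨ G.Adj x y) := by
  simp [nb, hadj]

theorem stuck_iff (G : SimpleGraph V) (vs : List V) (hvs : ∀ v, v ∈ vs) (adj : V → V → Bool)
    (hadj : ∀ x y, adj x y = true ↔ G.Adj x y) (p : V → Option (Fin k)) :
    stuck vs (List.finRange k) adj p = true ↔
      ∃ x, (∀ y, (y = x ∨ G.Adj x y) → p y ≠ none) ∧
        ∃ c, ∀ y, (y = x ∨ G.Adj x y) → p y ≠ some c := by
  simp only [stuck, List.any_eq_true, Bool.and_eq_true, List.all_eq_true, Bool.or_eq_true,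
    Bool.not_eq_true', List.mem_finRange, true_and, decide_eq_false_iff_not]
  have h1 : ∀ x y, nb adj x y = false ↔ ¬ (y = x ∨ G.Adj x y) := by
    intro x y
    rw [← nb_iff G adj hadj, Bool.not_eq_true]
  constructor
  · rintro ⟨x, -, h2, c, h3⟩
    refine ⟨x, fun y hy => ?_, c, fun y hy => ?_⟩
    · rcases h2 y (hvs y) with h | h
      · exact absurd hy ((h1 x y).1 h)
      · exact Option.isSome_iff_ne_none.1 h
    · rcases h3 y (hvs y) with h | h
      · exact absurd hy ((h1 x y).1 h)
      · exact h
  · rintro ⟨x, h2, c, h3⟩
    refine ⟨x, hvs x, fun y _ => ?_, c, fun y _ => ?_⟩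
    · by_cases hy : (y = x ∨ G.Adj x y)
      · exact Or.inr (Option.isSome_iff_ne_none.2 (h2 y hy))
      · exact Or.inl ((h1 x y).2 hy)
    · by_cases hy : (y = x ∨ G.Adj x y)
      · exact Or.inr (h3 y hy)
      · exact Or.inl ((h1 x y).2 hy)

theorem good_iff (G : SimpleGraph V) (vs : List V) (hvs : ∀ v, v ∈ vs) (adj : V → V → Bool)
    (hadj : ∀ x y, adj x y = true ↔ G.Adj x y) (p : V → Option (Fin k)) :
    good vs (List.finRange k) adj p = true ↔
      ∀ (x : V) (c : Fin k), ∃ y, (y = x ∨ G.Adj x y) ∧ p y = some c := by
  simp only [good, List.any_eq_true, Bool.and_eq_true, List.all_eq_true,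
    List.mem_finRange, decide_eq_true_eq, true_implies, nb_iff G adj hadj]
  constructor
  · intro h x c
    obtain ⟨y, -, hy⟩ := h x (hvs x) c
    exact ⟨y, hy⟩
  · intro h x _ c
    obtain ⟨y, hy⟩ := h x c
    exact ⟨y, hvs y, hy⟩

theorem solve_iff [Finite V] (G : SimpleGraph V) (vs : List V) (hvs : ∀ v, v ∈ vs)
    (adj : V → V → Bool) (hadj : ∀ x y, adj x y = true ↔ G.Adj x y) :
    ∀ (m : ℕ) (t : Bool) (p : V → Option (Fin k)), unc p = m →
      (solve vs (List.finRange k) adj m t p = true ↔ Win G k m t p) := by
  intro m
  induction m with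
  | zero =>
    intro t p _
    cases t <;> exact good_iff G vs hvs adj hadj p
  | succ m ih =>
    intro t p hu
    have hstuck : stuck vs (List.finRange k) adj p = true → ¬ Win G k (m + 1) t p := by
      intro hs hw
      obtain ⟨x, h2, c, h3⟩ := (stuck_iff G vs hvs adj hadj p).1 hs
      obtain ⟨y, hy, hyc⟩ := win_full G (m + 1) t p hu hw x h2 c
      exact h3 y hy hyc
    cases t
    · simp only [solve, Bool.and_eq_true, Bool.not_eq_true', List.all_eq_true, Bool.or_eq_true,
        List.mem_finRange, true_implies]
      constructor
      · rintro ⟨-, h⟩ p' hp'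
        obtain ⟨v, c, hv, rfl⟩ := (move_iff p p').1 hp'
        have hu' : unc (Function.update p v (some c)) = m := by
          have := unc_move hp'; omega
        rcases h v (hvs v) with h1 | h1
        · rw [hv] at h1; simp at h1
        · exact (ih true _ hu').1 (h1 c)
      · intro hw
        refine ⟨?_, fun v _ => ?_⟩
        · by_contra hs
          exact hstuck (by simpa using hs) hw
        · by_cases hv : p v = none
          · refine Or.inr fun c => ?_
            have hm := move_update p v hv c
            have hu' : unc (Function.update p v (some c)) = m := by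
              have := unc_move hm; omega
            exact (ih true _ hu').2 (hw _ hm)
          · exact Or.inl (Option.isSome_iff_ne_none.2 hv)
    · simp only [solve, Bool.and_eq_true, Bool.not_eq_true', List.any_eq_true,
        List.mem_finRange, true_and, Option.isNone_iff_eq_none]
      constructor
      · rintro ⟨-, v, -, hv, c, h⟩
        have hm := move_update p v hv c
        have hu' : unc (Function.update p v (some c)) = m := by
          have := unc_move hm; omega
        exact ⟨_, hm, (ih false _ hu').1 h⟩
      · intro hw
        refine ⟨?_, ?_⟩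
        · by_contra hs
          exact hstuck (by simpa using hs) hw
        · obtain ⟨p', hp', hw'⟩ := hw
          obtain ⟨v, c, hv, rfl⟩ := (move_iff p p').1 hp'
          have hu' : unc (Function.update p v (some c)) = m := by
            have := unc_move hp'; omega
          exact ⟨v, hvs v, hv, c, (ih false _ hu').2 hw'⟩

theorem solve_start [Finite V] (G : SimpleGraph V) (vs : List V) (hvs : ∀ v, v ∈ vs)
    (adj : V → V → Bool) (hadj : ∀ x y, adj x y = true ↔ G.Adj x y) (n : ℕ)
    (hn : Nat.card V = n) (t : Bool) :
    Win G k (Nat.card V) t (fun _ => none) ↔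
      solve vs (List.finRange k) adj n t (fun _ => none) = true := by
  rw [← hn]
  exact (solve_iff G vs hvs adj hadj _ t _ unc_start).symm

end Solver

/-! ## Strategies -/

/-- If `x` has the single neighbour `y` and the number of vertices is even, Bob wins the game
with palette `[2]` in which Alice moves first. -/
theorem bob_wins [Finite V] (G : SimpleGraph V) (x y : V) (hxy : x ≠ y)
    (hN : ∀ z, G.Adj x z ↔ z = y) : ∀ (m : ℕ) (p : V → Option (Fin 2)), unc p = 2 * m →
    p x = none → p y = none → ¬ Win G 2 (2 * m) true p := by
  classical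
  intro m
  induction m with
  | zero =>
    intro p hu hx _
    have : {v | p v = none} = ∅ := (Set.ncard_eq_zero (Set.toFinite _)).1 hu
    have hxm : x ∈ {v | p v = none} := hx
    rw [this] at hxm
    exact absurd hxm (by simp)
  | succ m ih =>
    intro p hu hx hy hw
    obtain ⟨p', hp', hw'⟩ := (show ∃ p', Move p p' ∧ Win G 2 (2 * m + 1) false p' from hw)
    obtain ⟨v, c, hv, rfl⟩ := (move_iff p p').1 hp'
    set p' := Function.update p v (some c) with hp'def
    have hu' : unc p' = 2 * m + 1 := by have := unc_move hp'; omega
    -- the position where Alice has played on `x` or `y`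
    have key : ∀ a b : V, (∀ z, (z = x ∨ G.Adj x z) ↔ (z = a ∨ z = b)) → a ≠ b → v = a →
        p b = none → False := by
      intro a b hab hne hva hb
      have hb' : p' b = none := by
        rw [hp'def, Function.update_of_ne (by rw [hva]; exact hne.symm)]; exact hb
      have hm2 := move_update p' b hb' c
      have hw2 := hw' _ hm2
      have hu2 : unc (Function.update p' b (some c)) = 2 * m := by
        have := unc_move hm2; omega
      have hcol : ∀ z, (z = x ∨ G.Adj x z) → Function.update p' b (some c) z = some c := by
        intro z hz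
        rcases (hab z).1 hz with rfl | rfl
        · rw [Function.update_of_ne hne, hp'def, hva, Function.update_self]
        · rw [Function.update_self]
      obtain ⟨z, hz, hzc⟩ := win_full G _ true _ hu2 hw2 x
        (fun z hz => by rw [hcol z hz]; simp) (c + 1)
      rw [hcol z hz] at hzc
      have := Option.some_injective _ hzc
      fin_cases c <;> simp at this
    have hNx : ∀ z, (z = x ∨ G.Adj x z) ↔ (z = x ∨ z = y) := by intro z; rw [hN]
    by_cases hvx : v = x
    · exact key x y hNx hxy hvx hy
    by_cases hvy : v = y
    · exact key y x (fun z => by rw [hNx]; tauto) hxy.symm hvy hx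
    -- otherwise Bob plays elsewhere
    have hx' : p' x = none := by rw [hp'def, Function.update_of_ne (Ne.symm hvx)]; exact hx
    have hy' : p' y = none := by rw [hp'def, Function.update_of_ne (Ne.symm hvy)]; exact hy
    have hex : ∃ z, p' z = none ∧ z ≠ x ∧ z ≠ y := by
      by_contra hcon
      push Not at hcon
      have hset : {z | p' z = none} = {x, y} := by
        ext z
        simp only [Set.mem_ofPred_eq, Set.mem_insert_iff, Set.mem_singleton_iff]
        constructor
        · intro hz
          by_cases hzx : z = x
          · exact Or.inl hzx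
          · exact Or.inr (hcon z hz hzx)
        · rintro (rfl | rfl)
          · exact hx'
          · exact hy'
      rw [unc, hset, Set.ncard_pair hxy] at hu'
      omega
    obtain ⟨z, hz, hzx, hzy⟩ := hex
    have hm2 := move_update p' z hz 0
    refine ih _ ?_ ?_ ?_ (hw' _ hm2)
    · have := unc_move hm2; omega
    · rw [Function.update_of_ne (Ne.symm hzx)]; exact hx'
    · rw [Function.update_of_ne (Ne.symm hzy)]; exact hy'

/-- If `G` has a perfect matching, Alice wins the game with palette `[2]` in which Bob moves
first. -/
theorem alice_wins [Finite V] (G : SimpleGraph V) (μ : V → V) (hμ : ∀ v, μ (μ v) = v)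
    (hadj : ∀ v, G.Adj v (μ v)) : ∀ (m : ℕ) (p : V → Option (Fin 2)), unc p = 2 * m →
    (∀ v, (p v = none ∧ p (μ v) = none) ∨ ∃ c, p v = some c ∧ p (μ v) = some (c + 1)) →
    Win G 2 (2 * m) false p := by
  classical
  intro m
  have hne : ∀ v, μ v ≠ v := fun v h => (hadj v).ne h.symm
  induction m with
  | zero =>
    intro p hu hinv x c
    have hem : {v | p v = none} = ∅ := (Set.ncard_eq_zero (Set.toFinite _)).1 hu
    rcases hinv x with ⟨h, _⟩ | ⟨d, hd, hd'⟩
    · have hxm : x ∈ {v | p v = none} := h
      rw [hem] at hxm
      exact absurd hxm (by simp)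
    · by_cases hcd : d = c
      · exact ⟨x, Or.inl rfl, by rw [hd, hcd]⟩
      · refine ⟨μ x, Or.inr (hadj x), ?_⟩
        rw [hd']
        congr 1
        revert hcd
        fin_cases d <;> fin_cases c <;> simp
  | succ m ih =>
    intro p hu hinv
    change ∀ p', Move p p' → Win G 2 (2 * m + 1) true p'
    intro p' hp'
    obtain ⟨v, c, hv, rfl⟩ := (move_iff p p').1 hp'
    set p' := Function.update p v (some c) with hp'def
    have hu' : unc p' = 2 * m + 1 := by have := unc_move hp'; omega
    have hmv : p (μ v) = none := by
      rcases hinv v with ⟨_, h⟩ | ⟨d, hd, _⟩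
      · exact h
      · rw [hv] at hd; exact absurd hd (by simp)
    have hmv' : p' (μ v) = none := by rw [hp'def, Function.update_of_ne (hne v)]; exact hmv
    have hm2 := move_update p' (μ v) hmv' (c + 1)
    refine ⟨_, hm2, ih _ (by have := unc_move hm2; omega) ?_⟩
    intro w
    by_cases hwv : w = v
    · right
      refine ⟨c, ?_, ?_⟩
      · rw [hwv, Function.update_of_ne (hne v).symm, hp'def, Function.update_self]
      · rw [hwv, Function.update_self]
    by_cases hwm : w = μ v
    · right
      refine ⟨c + 1, ?_, ?_⟩
      · rw [hwm, Function.update_self]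
      · rw [hwm, hμ, Function.update_of_ne (hne v).symm, hp'def, Function.update_self]
        congr 1
        fin_cases c <;> simp
    have h1 : μ w ≠ v := fun h => hwm (by rw [← h, hμ])
    have h2 : μ w ≠ μ v := fun h => hwv (by rw [← hμ w, h, hμ])
    rw [Function.update_of_ne hwm, Function.update_of_ne h2, hp'def, Function.update_of_ne hwv,
      Function.update_of_ne h1]
    exact hinv w

end Pool.Agent.Lib.MP_2ce84e_co
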