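import Mathlib
import Pool.Agent.Lib.MP_2ce84e_co.Defs
import Pool.Agent.Lib.MP_2ce84e_co.Proof

/-!
# The values of the game domatic numbers of the graphs used in the counterexample
-/

namespace Pool.Agent.Lib.MP_2ce84e_co

theorem gammaA_eq {V : Type} [Finite V] (G : SimpleGraph V) (x : V) (a b : ℕ)
    (hb : {y | y = x ∨ G.Adj x y}.ncard ≤ b)
    (h : Win G a (Nat.card V) true fun _ => none)
    (h' : ∀ k, a < k → k ≤ b → ¬ Win G k (Nat.card V) true fun _ => none) : gammaA G = a := by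
  apply IsGreatest.csSup_eq
  refine ⟨h, fun k hk => ?_⟩
  by_contra hcon
  push Not at hcon
  exact h' k hcon ((win_le G x _ _ _ unc_start hk).trans hb) hk

theorem gammaB_eq {V : Type} [Finite V] (G : SimpleGraph V) (x : V) (a b : ℕ)
    (hb : {y | y = x ∨ G.Adj x y}.ncard ≤ b)
    (h : Win G a (Nat.card V) false fun _ => none)
    (h' : ∀ k, a < k → k ≤ b → ¬ Win G k (Nat.card V) false fun _ => none) : gammaB G = a := by
  apply IsGreatest.csSup_eq
  refine ⟨h, fun k hk => ?_⟩
  by_contra hcon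
  push Not at hcon
  exact h' k hcon ((win_le G x _ _ _ unc_start hk).trans hb) hk

/-! ### The graphs -/

abbrev K2 : SimpleGraph (Fin 2) := ⊤
abbrev K3 : SimpleGraph (Fin 3) := ⊤
abbrev K33 : SimpleGraph (Fin 3 ⊕ Fin 3) := completeBipartiteGraph (Fin 3) (Fin 3)

def adjTop {n : ℕ} (x y : Fin n) : Bool := !(decide (x = y))

theorem adjTop_iff {n : ℕ} (x y : Fin n) :
    adjTop x y = true ↔ (⊤ : SimpleGraph (Fin n)).Adj x y := by
  simp [adjTop]

def adjBip {m n : ℕ} : Fin m ⊕ Fin n → Fin m ⊕ Fin n → Bool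
  | .inl _, .inr _ => true
  | .inr _, .inl _ => true
  | .inl _, .inl _ => false
  | .inr _, .inr _ => false

theorem adjBip_iff {m n : ℕ} (x y : Fin m ⊕ Fin n) :
    adjBip x y = true ↔ (completeBipartiteGraph (Fin m) (Fin n)).Adj x y := by
  rcases x with x | x <;> rcases y with y | y <;> simp [adjBip]

def adjSum {m n : ℕ} : Fin m ⊕ Fin n → Fin m ⊕ Fin n → Bool
  | .inl x, .inl y => adjTop x y
  | .inr x, .inr y => adjTop x y
  | .inl _, .inr _ => false
  | .inr _, .inl _ => false

theorem adjSum_iff {m n : ℕ} (x y : Fin m ⊕ Fin n) :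
    adjSum x y = true ↔ ((⊤ : SimpleGraph (Fin m)) ⊕g (⊤ : SimpleGraph (Fin n))).Adj x y := by
  rcases x with x | x <;> rcases y with y | y <;> simp [adjSum, adjTop]

def vs (n : ℕ) : List (Fin n) := List.finRange n

theorem mem_vs (n : ℕ) (v : Fin n) : v ∈ vs n := List.mem_finRange v

def vsum (m n : ℕ) : List (Fin m ⊕ Fin n) :=
  (List.finRange m).map Sum.inl ++ (List.finRange n).map Sum.inr

theorem mem_vsum (m n : ℕ) (v : Fin m ⊕ Fin n) : v ∈ vsum m n := by
  rcases v with v | v <;> simp [vsum, List.mem_finRange]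

theorem top_start {n k : ℕ} (t : Bool) :
    Win (⊤ : SimpleGraph (Fin n)) k (Nat.card (Fin n)) t (fun _ => none) ↔
      solve (vs n) (List.finRange k) adjTop n t (fun _ => none) = true :=
  solve_start _ _ (mem_vs n) _ adjTop_iff n (by simp) t

theorem bip_start {m n k : ℕ} (t : Bool) :
    Win (completeBipartiteGraph (Fin m) (Fin n)) k (Nat.card (Fin m ⊕ Fin n)) t (fun _ => none) ↔
      solve (vsum m n) (List.finRange k) adjBip (m + n) t (fun _ => none) = true :=
  solve_start _ _ (mem_vsum m n) _ adjBip_iff (m + n) (by simp) t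

theorem sum_start {m n k : ℕ} (t : Bool) :
    Win ((⊤ : SimpleGraph (Fin m)) ⊕g (⊤ : SimpleGraph (Fin n))) k (Nat.card (Fin m ⊕ Fin n)) t
      (fun _ => none) ↔
      solve (vsum m n) (List.finRange k) adjSum (m + n) t (fun _ => none) = true :=
  solve_start _ _ (mem_vsum m n) _ adjSum_iff (m + n) (by simp) t

theorem deg_top (n : ℕ) (x : Fin n) : {y | y = x ∨ (⊤ : SimpleGraph (Fin n)).Adj x y}.ncard ≤ n := by
  calc _ ≤ (Set.univ : Set (Fin n)).ncard := Set.ncard_le_ncard (Set.subset_univ _) (Set.toFinite _)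
    _ = n := by simp [Set.ncard_univ]

theorem gammaA_K2 : gammaA K2 = 1 := by
  refine gammaA_eq K2 0 1 2 (deg_top 2 0) ?_ ?_
  · rw [top_start]; decide +kernel
  · intro k h1 h2
    interval_cases k
    rw [top_start]; decide +kernel

theorem gammaB_K2 : gammaB K2 = 2 := by
  refine gammaB_eq K2 0 2 2 (deg_top 2 0) ?_ ?_
  · rw [top_start]; decide +kernel
  · intro k h1 h2; omega

theorem gammaA_K3 : gammaA K3 = 2 := by
  refine gammaA_eq K3 0 2 3 (deg_top 3 0) ?_ ?_
  · rw [top_start]; decide +kernel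
  · intro k h1 h2
    interval_cases k
    rw [top_start]; decide +kernel

theorem gammaB_K3 : gammaB K3 = 2 := by
  refine gammaB_eq K3 0 2 3 (deg_top 3 0) ?_ ?_
  · rw [top_start]; decide +kernel
  · intro k h1 h2
    interval_cases k
    rw [top_start]; decide +kernel

theorem deg_K33 : {y | y = (Sum.inl 0) ∨ K33.Adj (Sum.inl 0) y}.ncard ≤ 4 := by
  have : {y | y = (Sum.inl 0) ∨ K33.Adj (Sum.inl 0) y} =
      (({Sum.inl 0, Sum.inr 0, Sum.inr 1, Sum.inr 2} : Finset (Fin 3 ⊕ Fin 3)) :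
        Set (Fin 3 ⊕ Fin 3)) := by
    ext y
    rcases y with y | y
    · simp
    · fin_cases y <;> simp
  rw [this, Set.ncard_coe_finset]
  decide

theorem gammaA_K33 : gammaA K33 = 2 := by
  refine gammaA_eq K33 (Sum.inl 0) 2 4 deg_K33 ?_ ?_
  · rw [bip_start]; decide +kernel
  · intro k h1 h2
    interval_cases k
    · rw [bip_start]; decide +kernel
    · rw [bip_start]; decide +kernel

theorem gammaB_K33 : gammaB K33 = 2 := by
  refine gammaB_eq K33 (Sum.inl 0) 2 4 deg_K33 ?_ ?_
  · rw [bip_start]; decide +kernel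
  · intro k h1 h2
    interval_cases k
    · rw [bip_start]; decide +kernel
    · rw [bip_start]; decide +kernel

theorem deg_sum {W : Type} [Finite W] (H : SimpleGraph W) :
    {y | y = (Sum.inl 0) ∨ (K2 ⊕g H).Adj (Sum.inl 0) y}.ncard ≤ 2 := by
  have : {y | y = (Sum.inl 0) ∨ (K2 ⊕g H).Adj (Sum.inl 0) y} ⊆
      {Sum.inl 0, Sum.inl 1} := by
    intro y hy
    rcases y with y | y
    · fin_cases y <;> simp
    · simp at hy
  exact (Set.ncard_le_ncard this (Set.toFinite _)).trans (Set.ncard_pair (by simp)).le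

theorem gammaA_K2K3 : gammaA (K2 ⊕g K3) = 2 := by
  refine gammaA_eq _ (Sum.inl 0) 2 2 (deg_sum K3) ?_ ?_
  · rw [sum_start]; decide +kernel
  · intro k h1 h2; omega

theorem gammaB_K2K3 : gammaB (K2 ⊕g K3) = 1 := by
  refine gammaB_eq _ (Sum.inl 0) 1 2 (deg_sum K3) ?_ ?_
  · rw [sum_start]; decide +kernel
  · intro k h1 h2
    interval_cases k
    rw [sum_start]; decide +kernel

/-- Alice wins with the palette `[1]`. -/
theorem win_one {V : Type} [Finite V] (G : SimpleGraph V) : ∀ (m : ℕ) (t : Bool)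
    (p : V → Option (Fin 1)), unc p = m → Win G 1 m t p := by
  classical
  intro m
  induction m with
  | zero =>
    intro t p hu
    have hem : {v | p v = none} = ∅ := (Set.ncard_eq_zero (Set.toFinite _)).1 hu
    have h : ∀ (x : V) (c : Fin 1), ∃ y, (y = x ∨ G.Adj x y) ∧ p y = some c := by
      intro x c
      refine ⟨x, Or.inl rfl, ?_⟩
      rcases hp : p x with _ | d
      · have hxm : x ∈ {v | p v = none} := hp
        rw [hem] at hxm
        exact absurd hxm (by simp)
      · rw [Subsingleton.elim d c]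
    cases t <;> exact h
  | succ m ih =>
    intro t p hu
    cases t
    · intro p' hp'
      exact ih true p' (by have := unc_move hp'; omega)
    · obtain ⟨v, hv⟩ := exists_unc hu
      have hm := move_update p v hv 0
      exact ⟨_, hm, ih false _ (by have := unc_move hm; omega)⟩

theorem gammaA_K2K33 : gammaA (K2 ⊕g K33) = 1 := by
  refine gammaA_eq _ (Sum.inl 0) 1 2 (deg_sum K33) ?_ ?_
  · exact win_one _ _ _ _ unc_start
  · intro k h1 h2
    interval_cases k
    have hcard : Nat.card (Fin 2 ⊕ (Fin 3 ⊕ Fin 3)) = 2 * 4 := by simp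
    rw [hcard]
    refine bob_wins _ (Sum.inl 0) (Sum.inl 1) (by simp) ?_ 4 _ (by rw [unc_start, hcard]) rfl rfl
    intro z
    rcases z with z | z
    · fin_cases z <;> simp
    · simp

/-- The perfect matching of `K₂ ⊕ K₃,₃`. -/
def mu : Fin 2 ⊕ (Fin 3 ⊕ Fin 3) → Fin 2 ⊕ (Fin 3 ⊕ Fin 3)
  | .inl x => .inl (x + 1)
  | .inr (.inl x) => .inr (.inr x)
  | .inr (.inr x) => .inr (.inl x)

theorem gammaB_K2K33 : gammaB (K2 ⊕g K33) = 2 := by
  refine gammaB_eq _ (Sum.inl 0) 2 2 (deg_sum K33) ?_ ?_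
  · have hcard : Nat.card (Fin 2 ⊕ (Fin 3 ⊕ Fin 3)) = 2 * 4 := by simp
    rw [hcard]
    refine alice_wins _ mu ?_ ?_ 4 _ (by rw [unc_start, hcard]) (fun v => Or.inl ⟨rfl, rfl⟩)
    · intro v
      rcases v with v | v | v
      · fin_cases v <;> simp [mu]
      · simp [mu]
      · simp [mu]
    · intro v
      rcases v with v | v | v
      · fin_cases v <;> simp [mu]
      · simp [mu]
      · simp [mu]
  · intro k h1 h2; omega

end Pool.Agent.Lib.MP_2ce84e_co
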